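import Mathlib

set_option autoImplicit false

namespace Pool.Agent.H.MP_4aa5c9_gt

open Filter Topology Set Metric TopologicalSpace

variable {Y : Type*} [MetricSpace Y]

def Inc (A B : Set Y) : Prop :=
  ∃ (r : ℝ) (S : Finset Y) (b : Fin (S.card + 2) → Y), 0 < r ∧ A ⊆ (⋃ s ∈ S, ball s r) ∧
    (∀ k, b k ∈ B) ∧ ∀ k l, k ≠ l → 2 * r ≤ dist (b k) (b l)

theorem Inc.not_cover {A B : Set Y} (h : Inc A B) {g : Y → Y}
    (hg : ∀ x ∈ A, ∀ y ∈ A, dist (g x) (g y) ≤ dist x y) : ¬ B ⊆ g '' A := by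
  intro hB
  obtain ⟨r, S, b, -, h1, h2, h3⟩ := h
  choose x hx ex using fun k => hB (h2 k)
  have : ∀ k, ∃ s : S, x k ∈ ball (s:Y) r := fun k => by
    obtain ⟨s, hs, q⟩ := mem_iUnion₂.1 (h1 (hx k))
    exact ⟨⟨s, hs⟩, q⟩
  choose s hs using this
  obtain ⟨k, l, kl, e⟩ := Fintype.exists_ne_map_eq_of_card_lt s (by simp)
  have a := h3 k l kl
  have a1 := hg _ (hx k) _ (hx l)
  rw [ex, ex] at a1
  have a2 := hs k
  have a3 := hs l
  rw [← e] at a3
  linarith [dist_triangle_right (x k) (x l) (s k), mem_ball.1 a2, mem_ball.1 a3]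

theorem many {Z : Type*} [MetricSpace Z] (hp : ∀ x : Z, ∀ ε > 0, ∃ y, y ≠ x ∧ dist y x < ε)
    (q : Z) (ε : ℝ) (hε : 0 < ε) (N : ℕ) :
    ∃ a : Fin N → Z, Function.Injective a ∧ ∀ k, dist (a k) q < ε := by
  haveI : NeBot (𝓝[≠] q) := mem_closure_iff_nhdsWithin_neBot.1 (Metric.mem_closure_iff.2
    fun δ hδ => by obtain ⟨y, y1, y2⟩ := hp q δ hδ; exact ⟨y, y1, by rwa [dist_comm]⟩)
  have inf : (ball q ε).Infinite := infinite_of_mem_nhds q (ball_mem_nhds q hε)
  let e := inf.natEmbedding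
  exact ⟨fun k => e k, fun k l h => Fin.ext (e.injective (Subtype.ext h)), fun k => (e k).2⟩

def D (C : ℕ → Set Y) (n m : ℕ) (F E V : Set Y) : Set (∀ n, NonemptyCompacts (C n)) :=
  {K | (K m : Set (C m)) ⊆ Subtype.val ⁻¹' Eᶜ} ∪
    ⋃ (r : ℝ) (S : Finset Y) (b : Fin (S.card + 2) → Y)
      (_ : 0 < r ∧ ∀ k l, k ≠ l → 4 * r ≤ dist (b k) (b l)),
      {K | (K n : Set (C n)) ⊆ Subtype.val ⁻¹' (Fᶜ ∪ ⋃ s ∈ S, ball s r)} ∩
        ⋂ k, {K | ((K m : Set (C m)) ∩ Subtype.val ⁻¹' (V ∩ ball (b k) r)).Nonempty}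

theorem op1 (C : ℕ → Set Y) (m : ℕ) {U : Set Y} (hU : IsOpen U) :
    IsOpen {K : ∀ n, NonemptyCompacts (C n) | (K m : Set (C m)) ⊆ Subtype.val ⁻¹' U} := by
  have c : Continuous fun K : ∀ n, NonemptyCompacts (C n) => K m := continuous_apply m
  exact (NonemptyCompacts.isOpen_subsets_of_isOpen (hU.preimage continuous_subtype_val)).preimage c

theorem op2 (C : ℕ → Set Y) (m : ℕ) {U : Set Y} (hU : IsOpen U) :
    IsOpen {K : ∀ n, NonemptyCompacts (C n) |
      ((K m : Set (C m)) ∩ Subtype.val ⁻¹' U).Nonempty} := by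
  have c : Continuous fun K : ∀ n, NonemptyCompacts (C n) => K m := continuous_apply m
  exact (NonemptyCompacts.isOpen_inter_nonempty_of_isOpen
    (hU.preimage continuous_subtype_val)).preimage c

theorem D_open (C : ℕ → Set Y) (n m : ℕ) {F E V : Set Y} (hF : IsClosed F) (hE : IsClosed E)
    (hV : IsOpen V) : IsOpen (D C n m F E V) :=
  (op1 C m hE.isOpen_compl).union (isOpen_iUnion fun _ => isOpen_iUnion fun _ =>
    isOpen_iUnion fun _ => isOpen_iUnion fun _ => (op1 C n (hF.isOpen_compl.union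
      (isOpen_biUnion fun _ _ => isOpen_ball))).inter
      (isOpen_iInter_of_finite fun _ => op2 C m (hV.inter isOpen_ball)))

theorem D_inc {C : ℕ → Set Y} {n m : ℕ} {F E V : Set Y} {K : ∀ n, NonemptyCompacts (C n)}
    (h : K ∈ D C n m F E V) (hE : (Subtype.val '' (K m : Set (C m)) ∩ E).Nonempty) :
    Inc (Subtype.val '' (K n : Set (C n)) ∩ F) (Subtype.val '' (K m : Set (C m)) ∩ V) := by
  rcases h with h | h
  · obtain ⟨_, ⟨q, hq, rfl⟩, e⟩ := hE
    exact absurd e (h hq)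
  simp only [mem_iUnion] at h
  obtain ⟨r, S, b, ⟨r0, hb⟩, h1, h2⟩ := h
  choose x hx using mem_iInter.1 h2
  refine ⟨r, S, fun k => x k, r0, ?_, fun k => ⟨⟨_, (hx k).1, rfl⟩, (hx k).2.1⟩, fun k l kl => ?_⟩
  · rintro _ ⟨⟨q, hq, rfl⟩, e⟩
    exact (h1 hq).resolve_left fun c => c e
  · have a1 : dist (x k : Y) (b k) < r := (hx k).2.2
    have a2 : dist (x l : Y) (b l) < r := (hx l).2.2
    linarith [hb k l kl, dist_triangle4_left (b k) (x k) (b l) (x l),
      dist_triangle4 (b k) (x k) (x l) (b l), dist_comm (b k) (x k)]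

theorem D_dense (C : ℕ → Set Y) (hp : ∀ n, ∀ x : C n, ∀ ε > 0, ∃ y, y ≠ x ∧ dist y x < ε)
    (n m : ℕ) {F E V : Set Y} (hV : IsOpen V) (EV : E ⊆ V) (FV : Disjoint F V) :
    Dense (D C n m F E V) := by
  classical
  have fin : Dense (pi univ fun n => {K : NonemptyCompacts (C n) | (K : Set (C n)).Finite}) :=
    dense_pi univ fun n _ => NonemptyCompacts.dense_setOfPred_finite
  refine Dense.of_closure (fin.mono fun K hK => ?_)
  by_cases c : (K m : Set (C m)) ⊆ Subtype.val ⁻¹' Eᶜ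
  · exact subset_closure (Or.inl c)
  obtain ⟨q, hq, qE⟩ := not_subset.1 c
  have qV : (q : Y) ∈ V := EV (not_not.1 qE)
  obtain ⟨η, η0, hη⟩ := Metric.isOpen_iff.1 hV q qV
  have cu : Continuous fun L : NonemptyCompacts (C m) => Function.update K m L :=
    continuous_const.update m continuous_id
  have : K m ∈ closure ((fun L => Function.update K m L) ⁻¹' D C n m F E V) := by
    refine Metric.mem_closure_iff.2 fun ε hε => ?_
    let S : Finset Y := ((hK n trivial).image Subtype.val).toFinset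
    obtain ⟨a, ai, ha⟩ := many (hp m) q (min η (ε / 2)) (lt_min η0 (by linarith)) (S.card + 2)
    have ev : ∀ᶠ r in 𝓝[>] (0:ℝ), ∀ k l, k ≠ l → 4 * r ≤ dist (a k : Y) (a l) := by
      refine eventually_all.2 fun k => eventually_all.2 fun l => ?_
      by_cases e : k = l
      · exact Eventually.of_forall fun _ h => absurd e h
      · have : 0 < dist (a k : Y) (a l) := dist_pos.2 fun h => e (ai (Subtype.ext h))
        filter_upwards [Ioc_mem_nhdsGT (show (0:ℝ) < dist (a k : Y) (a l) / 4 by linarith)]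
          with r hr _
        linarith [hr.2]
    obtain ⟨r, hr, r0⟩ := (ev.and self_mem_nhdsWithin).exists
    have aV : ∀ k, (a k : Y) ∈ V := fun k => hη ((ha k).trans_le (min_le_left _ _))
    let L : NonemptyCompacts (C m) := ⟨⟨K m ∪ range a,
      (K m).isCompact.union (finite_range a).isCompact⟩, ⟨q, Or.inl hq⟩⟩
    refine ⟨L, Or.inr ?_, ?_⟩
    · simp only [mem_iUnion]
      refine ⟨r, S, fun k => a k, ⟨r0, hr⟩, ?_, mem_iInter.2 fun k => ?_⟩
      · have b : ∀ x ∈ (K n : Set (C n)), (x : Y) ∈ Fᶜ ∪ ⋃ s ∈ S, ball s r := fun x hx =>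
          Or.inr (mem_iUnion₂.2 ⟨x, by simp [S]; exact hx, mem_ball_self r0⟩)
        by_cases e : n = m
        · subst e
          simp only [mem_setOf_eq, Function.update_self]
          rintro x (hx | ⟨k, rfl⟩)
          · exact b x hx
          · exact Or.inl fun h => disjoint_left.1 FV h (aV k)
        · simp only [mem_setOf_eq, Function.update_of_ne e]
          exact b
      · simp only [mem_setOf_eq, Function.update_self]
        exact ⟨a k, Or.inr ⟨k, rfl⟩, aV k, mem_ball_self r0⟩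
    · rw [NonemptyCompacts.dist_eq]
      refine lt_of_le_of_lt (hausdorffDist_le_of_mem_dist (r := ε / 2) (by linarith)
        (fun x hx => ⟨x, Or.inl hx, by simp; linarith⟩) ?_) (by linarith)
      rintro x (hx | ⟨k, rfl⟩)
      · exact ⟨x, hx, by simp; linarith⟩
      · exact ⟨q, hq, ((ha k).trans_le (min_le_right _ _)).le⟩
  have := cu.closure_preimage_subset _ this
  simpa using this

theorem generic (C : ℕ → Set Y) (hc : ∀ n, IsCompact (C n)) (hne : ∀ n, (C n).Nonempty)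
    (hp : ∀ n, ∀ x : C n, ∀ ε > 0, ∃ y, y ≠ x ∧ dist y x < ε) (c : ℕ → Y) :
    ∃ K : ℕ → Set Y, (∀ n, IsCompact (K n) ∧ (K n).Nonempty ∧ K n ⊆ C n) ∧
      ∀ (n m i j : ℕ) (a b : ℚ), 0 < b → Disjoint (closedBall (c i) a) (ball (c j) (2 * b)) →
        (K m ∩ closedBall (c j) b).Nonempty →
        Inc (K n ∩ closedBall (c i) a) (K m ∩ ball (c j) (2 * b)) := by
  haveI : ∀ n, CompactSpace (C n) := fun n => isCompact_iff_compactSpace.1 (hc n)
  haveI : ∀ n, Nonempty (C n) := fun n => (hne n).to_subtype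
  let I := {t : ℕ × ℕ × ℕ × ℕ × ℚ × ℚ // 0 < t.2.2.2.2.2 ∧
    Disjoint (closedBall (c t.2.2.1) t.2.2.2.2.1) (ball (c t.2.2.2.1) (2 * t.2.2.2.2.2))}
  have := dense_iInter_of_isOpen (f := fun t : I => D C t.1.1 t.1.2.1
    (closedBall (c t.1.2.2.1) t.1.2.2.2.2.1) (closedBall (c t.1.2.2.2.1) t.1.2.2.2.2.2)
    (ball (c t.1.2.2.2.1) (2 * t.1.2.2.2.2.2)))
    (fun t => D_open _ _ _ isClosed_closedBall isClosed_closedBall isOpen_ball)
    (fun t => D_dense C hp _ _ isOpen_ball (closedBall_subset_ball (by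
      have : (0:ℝ) < t.1.2.2.2.2.2 := by exact_mod_cast t.2.1
      linarith)) t.2.2)
  obtain ⟨K, hK⟩ := this.nonempty
  refine ⟨fun n => Subtype.val '' (K n : Set (C n)), fun n =>
    ⟨(K n).isCompact.image continuous_subtype_val, (K n).nonempty.image _, ?_⟩,
    fun n m i j a b b0 dj ne => D_inc (mem_iInter.1 hK ⟨(n, m, i, j, a, b), b0, dj⟩) ne⟩
  rintro _ ⟨x, -, rfl⟩; exact x.2

theorem baire {T : Set Y} (hT : IsCompact T) {ι : Type} [Countable ι] (G : ι → Set Y)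
    (hG : ∀ i, IsClosed (Subtype.val ⁻¹' G i : Set T)) (cov : ∀ q ∈ T, ∃ i, q ∈ G i) {q : Y}
    (hq : q ∈ T) {ε : ℝ} (hε : 0 < ε) :
    ∃ i, ∃ p ∈ T, dist p q < ε ∧ ∃ δ > 0, T ∩ ball p δ ⊆ G i := by
  haveI : CompactSpace T := isCompact_iff_compactSpace.1 hT
  have := dense_iUnion_interior_of_closed hG (eq_univ_of_forall fun x => by
    obtain ⟨i, hi⟩ := cov x x.2; exact mem_iUnion.2 ⟨i, hi⟩)
  obtain ⟨p, hp, pq⟩ := Metric.mem_closure_iff.1 (this ⟨q, hq⟩) ε hε
  obtain ⟨i, hi⟩ := mem_iUnion.1 hp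
  obtain ⟨δ, δ0, hδ⟩ := Metric.isOpen_iff.1 isOpen_interior p hi
  exact ⟨i, p, p.2, by rw [dist_comm]; exact pq, δ, δ0,
    fun y hy => interior_subset (s := (Subtype.val ⁻¹' G i : Set T)) (hδ (a := ⟨y, hy.1⟩) hy.2)⟩

theorem small {c : ℕ → Y} (hc : DenseRange c) (p : Y) {δ : ℝ} (hδ : 0 < δ) :
    ∃ (j : ℕ) (b : ℚ), 0 < b ∧ 3 * (b:ℝ) < δ ∧ dist p (c j) < b := by
  obtain ⟨b, b0, b1⟩ := exists_rat_btwn (show (0:ℝ) < δ / 3 by linarith)
  obtain ⟨j, hj⟩ := Metric.denseRange_iff.1 hc p b b0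
  exact ⟨j, b, by exact_mod_cast b0, by linarith, hj⟩

section
variable {c : ℕ → Y} (hc : DenseRange c) {K : ℕ → Set Y} (hK : ∀ n, IsCompact (K n))
  (H : ∀ (n m i j : ℕ) (a b : ℚ), 0 < b → Disjoint (closedBall (c i) a) (ball (c j) (2 * b)) →
        (K m ∩ closedBall (c j) b).Nonempty →
        Inc (K n ∩ closedBall (c i) a) (K m ∩ ball (c j) (2 * b)))
include hc hK H

theorem unc (m : ℕ) (hne : (K m).Nonempty) : ¬ (K m).Countable := by
  intro h
  obtain ⟨u, hu⟩ := h.exists_eq_range hne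
  obtain ⟨q, hq⟩ := hne
  obtain ⟨i, p, hp, -, δ, δ0, hδ⟩ := baire (hK m) (fun i => {u i})
    (fun i => isClosed_singleton.preimage continuous_subtype_val)
    (fun q hq => by rw [hu] at hq; obtain ⟨i, rfl⟩ := hq; exact ⟨i, rfl⟩) hq one_pos
  obtain ⟨j, b, b0, b1, b2⟩ := small hc p δ0
  obtain ⟨r, S, x, r0, -, h2, h3⟩ := H m m 0 j (-1) b b0
    (by rw [closedBall_eq_empty.2 (by norm_num)]; exact empty_disjoint _) ⟨p, hp, b2.le⟩
  have e : ∀ k, x k = u i := fun k => hδ ⟨(h2 k).1, by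
    have := mem_ball.1 (h2 k).2
    rw [mem_ball]; linarith [dist_triangle_right (x k) p (c j)]⟩
  have := h3 0 1 (by simp)
  rw [e, e, dist_self] at this
  linarith

theorem rigid {g : Y → Y} (hg : ∀ x ∈ ⋃ n, K n, ∀ y ∈ ⋃ n, K n, dist (g x) (g y) ≤ dist x y)
    (hs : ∀ q ∈ ⋃ n, K n, ∃ x ∈ ⋃ n, K n, g x = q) : ∀ q ∈ ⋃ n, K n, g q = q := by
  intro q hq
  obtain ⟨m, hm⟩ := mem_iUnion.1 hq
  have sub : ∀ n, K n ⊆ ⋃ n, K n := subset_iUnion K
  have gc : ContinuousOn g (⋃ n, K n) :=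
    (LipschitzOnWith.of_dist_le_mul (K := 1) fun x hx y hy => by simpa using hg x hx y hy).continuousOn
  let G : Option (ℕ × ℕ × ℚ) → Set Y := fun o => match o with
    | none => {y | g y = y}
    | some t => g '' (K t.1 ∩ closedBall (c t.2.1) t.2.2) ∩
        {y | 0 < t.2.2 ∧ 2 * (t.2.2:ℝ) ≤ dist y (c t.2.1)}
  refine eq_of_dist_eq_zero (le_antisymm (le_of_forall_pos_le_add fun ε hε => ?_) dist_nonneg)
  obtain ⟨o, p, hp, pq, δ, δ0, hδ⟩ := baire (hK m) G (fun o => by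
      cases o with
      | none =>
        exact isClosed_eq ((gc.mono (sub m)).restrict) continuous_subtype_val
      | some t =>
        refine IsClosed.preimage continuous_subtype_val (IsClosed.inter
          (((hK t.1).inter_right isClosed_closedBall).image_of_continuousOn
            (gc.mono (inter_subset_left.trans (sub _)))).isClosed ?_)
        exact (isClosed_const).and (isClosed_le continuous_const (by fun_prop)))
    (fun y hy => by
      obtain ⟨x, hx, e⟩ := hs y (sub m hy)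
      by_cases xy : x = y
      · exact ⟨none, by subst xy; exact e⟩
      obtain ⟨n, hn⟩ := mem_iUnion.1 hx
      obtain ⟨i, a, a0, a1, a2⟩ := small hc x (dist_pos.2 xy)
      exact ⟨some (n, i, a), ⟨x, ⟨hn, a2.le⟩, e⟩, a0,
        by linarith [dist_triangle_right x y (c i)]⟩) hm (half_pos hε)
  cases o with
  | none =>
    have e : g p = p := hδ ⟨hp, mem_ball_self δ0⟩
    have := hg q hq p (sub m hp)
    rw [e] at this
    linarith [dist_triangle (g q) p q, dist_comm q p]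
  | some t =>
    exfalso
    obtain ⟨n, i, a⟩ := t
    obtain ⟨-, a0, a1⟩ := hδ ⟨hp, mem_ball_self δ0⟩
    have a0' : (0:ℝ) < a := by exact_mod_cast a0
    obtain ⟨j, b, b0, b1, b2⟩ := small hc p (lt_min δ0 a0')
    have m1 := min_le_left δ (a:ℝ)
    have m2 := min_le_right δ (a:ℝ)
    refine (H n m i j a b b0 (disjoint_left.2 fun y h1 h2 => ?_) ⟨p, hp, b2.le⟩).not_cover
      (g := g) (fun x hx y hy => hg x (sub n hx.1) y (sub n hy.1)) fun y hy => (hδ ⟨hy.1, ?_⟩).1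
    · have := mem_closedBall.1 h1
      have := mem_ball.1 h2
      simp only at a1
      linarith [dist_triangle_right y p (c j), dist_triangle p y (c i), dist_comm p y]
    · have := mem_ball.1 hy.2
      rw [mem_ball]; linarith [dist_triangle_right y p (c j)]
end

end Pool.Agent.H.MP_4aa5c9_gt
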